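import Pool.Agent.H580R3.BF.Final

/-!
# Bounded faces of polyhedra: no polynomial total time algorithm unless `k`-Clique is FPT
-/

set_option autoImplicit false

namespace Pool.Agent.Results.MP_585ca9_lc.BoundedFacesHard

open Turing Pool.Agent.NPC Pool.Agent.H580R3.BF

/-- The `k`-Clique problem (given a finite graph and a number `k` in unary, is there a clique with
exactly `k` vertices?) is decided by a Turing machine in time polynomial in `N + 2 ^ k`, where `N`
is the length of the input. In particular it is fixed-parameter tractable, and solvable in time
`2 ^ O(k)` times a polynomial. -/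
def CliqueFPT : Prop :=
  ∃ (D : Gr × List Unit → Bool) (p : Polynomial ℕ),
    (∀ (g : Gr) (u : List Unit), D (g, u) = true ↔ ∃ S, (graph g).IsNClique u.length S) ∧
    TimeBound D (fun x => p.eval ((bits x).length + 2 ^ x.2.length))

/-- If the Hasse diagram of the bounded faces of unbounded pointed polyhedra, given by
inequalities, can be computed in polynomial total time, then `k`-Clique is fixed-parameter
tractable (so `FPT = W[1]` and the exponential time hypothesis fails). -/
theorem result (H : BoundedFacesInPolyTotalTime) : CliqueFPT := by
  obtain ⟨D, p, h1, h2⟩ := clique_time H
  exact ⟨D, p, fun g u => h1 (g, u), h2⟩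

end Pool.Agent.Results.MP_585ca9_lc.BoundedFacesHard
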